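import Mathlib
import Pool.Agent.H457HC.CubeBasics
import Pool.Agent.Y869.HV.Main

/-!
# The sharp upper bound for functions on the cube with values in a normed space
-/

set_option autoImplicit false

open Complex Metric Finset Real Pool.Agent.H457HC

namespace Pool.Agent.Y869.HV

noncomputable section

/-! ### families with values in a complex Banach space -/

section fam

variable {F : Type} [NormedAddCommGroup F] [NormedSpace ℂ F] {a : ℝ}

theorem Fam.zero : ∀ n : ℕ, Fam F a n (fun _ _ => 0)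
  | 0 => fun _ => AE_const 0
  | n + 1 => ⟨fun _ _ => 0, fun _ _ => 0, Fam.zero n, Fam.zero n, by intro ε ω z; simp⟩

theorem fam_chi (ha0 : 0 < a) (ha1 : a < 1) (v : F) : ∀ (n d : ℕ) (p : Fin n → Bool),
    (∑ i, if p i then 1 else 0) ≤ d →
    Fam F a n (fun ω z => (sg a z ^ d * ((∏ i, if p i then (((ω i : ℤˣ) : ℤ) : ℂ) else 1))) • v)
  | 0, d, p, _ => by
    intro ω
    simpa using AE.smul ((AA_sg ha0 ha1).pow' d) (AE_const v)
  | n + 1, d, p, hp => by
    rw [Fin.sum_univ_succ] at hp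
    by_cases h0 : p 0
    · simp only [h0, if_true] at hp
      obtain ⟨d', rfl⟩ : ∃ d', d = d' + 1 := ⟨d - 1, by omega⟩
      refine ⟨fun _ _ => 0, _, Fam.zero n, fam_chi ha0 ha1 v n d' (fun i => p i.succ) (by omega), ?_⟩
      intro ε ω z
      simp only [Fin.prod_univ_succ, h0, if_true, Fin.cons_zero, Fin.cons_succ, zero_add, smul_smul]
      congr 1
      ring
    · simp only [h0, if_false, Bool.false_eq_true, zero_add] at hp
      refine ⟨_, fun _ _ => 0, fam_chi ha0 ha1 v n d (fun i => p i.succ) hp, Fam.zero n, ?_⟩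
      intro ε ω z
      simp only [Fin.prod_univ_succ, h0, if_false, Fin.cons_succ, Bool.false_eq_true, smul_zero,
        add_zero, one_mul]

theorem Fam.sum {n : ℕ} {ι : Type*} (T : Finset ι) (H : ι → (Fin n → ℤˣ) → ℂ → F)
    (h : ∀ i ∈ T, Fam F a n (H i)) : Fam F a n (fun ω z => ∑ i ∈ T, H i ω z) := by
  classical
  induction T using Finset.induction_on with
  | empty => simpa using Fam.zero n
  | insert b T hb ih =>
    have h1 := ih (fun i hi => h i (Finset.mem_insert_of_mem hi))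
    have e : (fun (ω : Fin n → ℤˣ) z => ∑ i ∈ insert b T, H i ω z) =
        fun ω z => (1 : ℂ) • H b ω z + (1 : ℂ) • ∑ i ∈ T, H i ω z := by
      funext ω z; rw [Finset.sum_insert hb, one_smul, one_smul]
    rw [e]
    exact Fam.comb n (AA_const 1) (AA_const 1) (h b (Finset.mem_insert_self _ _)) h1

theorem fam_walsh (ha0 : 0 < a) (ha1 : a < 1) (v : F) {n d : ℕ} (S : Finset (Fin n))
    (h : S.card ≤ d) :
    Fam F a n (fun ω z => (sg a z ^ d * ((walsh S ω : ℝ) : ℂ)) • v) := by
  classical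
  have h1 := fam_chi ha0 ha1 v n d (fun i => decide (i ∈ S)) (by simpa using h)
  have e : (fun (ω : Fin n → ℤˣ) z => (sg a z ^ d * ((walsh S ω : ℝ) : ℂ)) • v) =
      fun ω z => (sg a z ^ d *
        ((∏ i, if (decide (i ∈ S) : Bool) then (((ω i : ℤˣ) : ℤ) : ℂ) else 1))) • v := by
    funext ω z
    congr 2
    unfold walsh
    simp only [decide_eq_true_eq]
    rw [Finset.prod_ite_mem, Finset.univ_inter]
    push_cast
    rfl
  rw [e]; exact h1

end fam

/-! ### functions with values in a real normed space -/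

variable {E : Type} [NormedAddCommGroup E] [NormedSpace ℝ E]

/-- `(E ‖f‖^p)^{1/p}` -/
def nrm {n : ℕ} (p : ℝ) (f : Cube n → E) : ℝ := ((∑ x, ‖f x‖ ^ p) / 2 ^ n) ^ (1 / p)

/-- The Fourier-Walsh coefficient. -/
def cf {n : ℕ} (f : Cube n → E) (S : Finset (Fin n)) : E :=
  ((2 : ℝ) ^ n)⁻¹ • ∑ x, walsh S x • f x

theorem inversion {n : ℕ} (f : Cube n → E) (x : Cube n) :
    f x = ∑ S : Finset (Fin n), walsh S x • cf f S := by
  have h1 : ∑ S : Finset (Fin n), walsh S x • cf f S =
      ((2 : ℝ) ^ n)⁻¹ • ∑ y, (∑ S : Finset (Fin n), walsh S y * walsh S x) • f y := by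
    unfold cf
    simp only [Finset.smul_sum, Finset.sum_smul, smul_smul]
    rw [Finset.sum_comm]
    refine Finset.sum_congr rfl fun y _ => Finset.sum_congr rfl fun S _ => ?_
    congr 1
    ring
  rw [h1]
  simp only [sum_walsh_mul, ite_smul, zero_smul, Finset.sum_ite_eq', Finset.mem_univ, if_true]
  rw [smul_smul, inv_mul_cancel₀ (by positivity), one_smul]

omit [NormedSpace ℝ E] in
theorem nrm_nonneg {n : ℕ} (p : ℝ) (f : Cube n → E) : 0 ≤ nrm p f :=
  Real.rpow_nonneg (div_nonneg (Finset.sum_nonneg fun _ _ => Real.rpow_nonneg (norm_nonneg _) _)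
    (by positivity)) _

omit [NormedSpace ℝ E] in
theorem nrm_rpow {n : ℕ} {p : ℝ} (hp : 0 < p) (f : Cube n → E) :
    nrm p f ^ p = (∑ x, ‖f x‖ ^ p) / 2 ^ n := by
  unfold nrm
  rw [← Real.rpow_mul (div_nonneg (Finset.sum_nonneg fun _ _ => Real.rpow_nonneg (norm_nonneg _) _)
    (by positivity))]
  have : 1 / p * p = 1 := by field_simp
  rw [this, Real.rpow_one]

/-- the bidual over the complex numbers -/
abbrev BB (E : Type) [NormedAddCommGroup E] [NormedSpace ℝ E] : Type :=
  StrongDual ℝ E →L[ℝ] ℂ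

/-- the isometric embedding in a complex Banach space -/
def emb (x : E) : BB E := Complex.ofRealCLM.comp (NormedSpace.inclusionInDoubleDual ℝ E x)

theorem norm_emb (x : E) : ‖emb x‖ = ‖x‖ := by
  unfold emb
  have h1 : ‖Complex.ofRealCLM.comp (NormedSpace.inclusionInDoubleDual ℝ E x)‖ =
      ‖NormedSpace.inclusionInDoubleDual ℝ E x‖ :=
    LinearIsometry.norm_toContinuousLinearMap_comp Complex.ofRealLI
  rw [h1]
  exact (NormedSpace.inclusionInDoubleDualLi ℝ (E := E)).norm_map x

theorem emb_sum {ι : Type*} (T : Finset ι) (c : ι → ℝ) (v : ι → E) :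
    emb (∑ i ∈ T, c i • v i) = ∑ i ∈ T, ((c i : ℝ) : ℂ) • emb (v i) := by
  ext φ
  simp [emb, map_sum, map_smul, ContinuousLinearMap.sum_apply]

theorem upper_aux {F : Type} [NormedAddCommGroup F] [NormedSpace ℂ F] [CompleteSpace F]
    (emb : E → F) (norm_emb : ∀ x, ‖emb x‖ = ‖x‖)
    (emb_sum : ∀ {ι : Type} (T : Finset ι) (c : ι → ℝ) (v : ι → E),
      emb (∑ i ∈ T, c i • v i) = ∑ i ∈ T, ((c i : ℝ) : ℂ) • emb (v i))
    {n d : ℕ} {p q : ℝ} (hp : 1 ≤ p) (hpq : p < q) (f : Cube n → E)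
    (hd : ∀ S, cf f S ≠ 0 → S.card ≤ d) :
    nrm q f ≤ Real.sqrt (2 * q / p - 1) ^ d * nrm p f := by
  classical
  have hp0 : 0 < p := by linarith
  have hq0 : 0 < q := by linarith
  have hM : 1 < 2 * (q / p) - 1 := by
    have : 1 < q / p := by rw [lt_div_iff₀ hp0]; linarith
    linarith
  have hM0 : 0 < 2 * (q / p) - 1 := by linarith
  set M := 2 * (q / p) - 1 with hMd
  have hMe : 2 * q / p - 1 = M := by rw [hMd]; ring
  rw [hMe]
  obtain ⟨a, ha⟩ : ∃ a : ℝ, a = 1 / Real.sqrt M := ⟨_, rfl⟩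
  have hs1 : 1 < Real.sqrt M := by
    rw [show (1:ℝ) = Real.sqrt 1 by simp]
    exact Real.sqrt_lt_sqrt (by norm_num) hM
  have ha0 : 0 < a := by rw [ha]; positivity
  have ha1 : a < 1 := by rw [ha, div_lt_one (by linarith)]; exact hs1
  have ha2 : a ^ 2 = 1 / (2 * (q / p) - 1) := by
    rw [ha, div_pow, Real.sq_sqrt hM0.le, one_pow]
  have hfam : Fam F a n (fun ω z => (sg a z ^ d) • emb (f ω)) := by
    have h := Fam.sum (a := a) ((Finset.univ : Finset (Finset (Fin n))).filter fun S => cf f S ≠ 0)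
      (fun S ω z => (sg a z ^ d * ((walsh S ω : ℝ) : ℂ)) • emb (cf f S)) (by
        intro S hS
        exact fam_walsh ha0 ha1 _ S (hd S (Finset.mem_filter.1 hS).2))
    have e : (fun (ω : Fin n → ℤˣ) z => (sg a z ^ d) • emb (f ω)) =
        fun ω z => ∑ S ∈ (Finset.univ : Finset (Finset (Fin n))).filter (fun S => cf f S ≠ 0),
          (sg a z ^ d * ((walsh S ω : ℝ) : ℂ)) • emb (cf f S) := by
      funext ω z
      have h2 : f ω = ∑ S ∈ (Finset.univ : Finset (Finset (Fin n))).filter (fun S => cf f S ≠ 0),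
          walsh S ω • cf f S := by
        conv_lhs => rw [inversion f ω]
        symm
        apply Finset.sum_filter_of_ne
        intro S _ h3 h4
        apply h3
        rw [h4, smul_zero]
      rw [h2, emb_sum, Finset.smul_sum]
      refine Finset.sum_congr rfl fun S _ => ?_
      rw [smul_smul]
    rw [e]; exact h
  have h := main_ineq hp hpq ha0 ha1 ha2 n _ hfam
  have e1 : EX p q n (fun ω z => (sg a z ^ d) • emb (f ω)) = (a ^ d * nrm q f) ^ p := by
    have h2 : Sq q n (fun ω z => (sg a z ^ d) • emb (f ω)) = (a ^ d * nrm q f) ^ q := by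
      rw [Real.mul_rpow (by positivity) (nrm_nonneg _ _), nrm_rpow hq0]
      unfold Sq
      rw [mul_div_assoc', Finset.mul_sum]
      congr 1
      apply Finset.sum_congr rfl
      intro ω _
      show ‖(sg a 0 ^ d) • emb (f ω)‖ ^ q = _
      rw [sg_zero, norm_smul, norm_pow, Complex.norm_real, Real.norm_of_nonneg ha0.le, norm_emb,
        Real.mul_rpow (by positivity) (norm_nonneg _)]
    unfold EX
    rw [h2, ← Real.rpow_mul (mul_nonneg (by positivity) (nrm_nonneg _ _))]
    congr 1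
    field_simp
  have e2 : circleAverage (Np p n (fun ω z => (sg a z ^ d) • emb (f ω))) 0 1 = nrm p f ^ p := by
    apply circleAverage_const_on_circle
    intro z hz
    have hz1 : ‖z‖ = 1 := by simpa using hz
    rw [nrm_rpow hp0]
    unfold Np
    congr 1
    apply Finset.sum_congr rfl
    intro ω _
    show ‖(sg a z ^ d) • emb (f ω)‖ ^ p = _
    rw [norm_smul, norm_pow, norm_sg_eq ha0 ha1 hz1, one_pow, one_mul, norm_emb]
  rw [e1, e2] at h
  have h6 : a ^ d * nrm q f ≤ nrm p f :=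
    (Real.rpow_le_rpow_iff (mul_nonneg (by positivity) (nrm_nonneg _ _)) (nrm_nonneg _ _) hp0).1 h
  have h3 : Real.sqrt M * a = 1 := by
    rw [ha, mul_one_div, div_self]
    linarith
  calc nrm q f = (Real.sqrt M * a) ^ d * nrm q f := by rw [h3]; simp
    _ = Real.sqrt M ^ d * (a ^ d * nrm q f) := by rw [mul_pow]; ring
    _ ≤ _ := mul_le_mul_of_nonneg_left h6 (by positivity)

/-- The sharp upper bound for all `1 ≤ p < q` and all normed spaces. -/
theorem upper_boundE {n d : ℕ} {p q : ℝ} (hp : 1 ≤ p) (hpq : p < q) (f : Cube n → E)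
    (hd : ∀ S, cf f S ≠ 0 → S.card ≤ d) :
    nrm q f ≤ Real.sqrt (2 * q / p - 1) ^ d * nrm p f :=
  upper_aux (F := BB E) emb norm_emb (fun T c v => emb_sum T c v) hp hpq f hd

end

end Pool.Agent.Y869.HV
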